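import Pool.Agent.W739.CY.Stm

set_option autoImplicit false
set_option linter.unusedSectionVars false

namespace Pool.Agent.W469.CY

open Pool.Agent.W739.CY

section basics

variable {C : Type} [DecidableEq C]

theorem spl_congr : ∀ (w : List C) (f g : List C → C → List C → ℝ),
    (∀ v c u, w = v ++ c :: u → f v c u = g v c u) → spl f w = spl g w := by
  intro w
  induction w with
  | nil => intro f g _; rfl
  | cons x w ih =>
    intro f g h
    simp only [spl]
    rw [h [] x w rfl]
    congr 1
    apply ih
    intro v c u hw
    exact h (x :: v) c u (by rw [hw]; rfl)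

theorem spl_zero : ∀ (w : List C), spl (fun _ _ _ => (0 : ℝ)) w = 0 := by
  intro w
  induction w with
  | nil => rfl
  | cons x w ih => simp only [spl]; rw [ih]; ring

theorem spl_add : ∀ (w : List C) (f g : List C → C → List C → ℝ),
    spl (fun v c u => f v c u + g v c u) w = spl f w + spl g w := by
  intro w
  induction w with
  | nil => intro f g; simp [spl]
  | cons x w ih =>
    intro f g
    simp only [spl]
    rw [ih (fun v c u => f (x :: v) c u) (fun v c u => g (x :: v) c u)]
    ring

theorem spl_mul : ∀ (w : List C) (k : ℝ) (f : List C → C → List C → ℝ),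
    spl (fun v c u => k * f v c u) w = k * spl f w := by
  intro w
  induction w with
  | nil => intro k f; simp [spl]
  | cons x w ih =>
    intro k f
    simp only [spl]
    rw [ih k (fun v c u => f (x :: v) c u)]
    ring

theorem spl_append : ∀ (w1 w2 : List C) (f : List C → C → List C → ℝ),
    spl f (w1 ++ w2) = spl (fun v c u => f v c (u ++ w2)) w1 +
      spl (fun v c u => f (w1 ++ v) c u) w2 := by
  intro w1
  induction w1 with
  | nil => intro w2 f; simp [spl]
  | cons x w1 ih =>
    intro w2 f
    simp only [List.cons_append, spl]
    rw [ih w2 (fun v c u => f (x :: v) c u)]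
    ring

/-- deletion operator -/
noncomputable def D (p : ℝ) (f : List C → ℝ) (w : List C) : ℝ :=
  spl (fun v _ u => p ^ u.length * f (v ++ u)) w

theorem D_nil (p : ℝ) (f : List C → ℝ) : D p f [] = 0 := rfl

theorem D_cons (p : ℝ) (f : List C → ℝ) (x : C) (w : List C) :
    D p f (x :: w) = p ^ w.length * f w + D p (fun z => f (x :: z)) w := by
  unfold D
  simp only [spl, List.nil_append, List.cons_append]

theorem D_add (p : ℝ) (f g : List C → ℝ) (w : List C) :
    D p (fun z => f z + g z) w = D p f w + D p g w := by
  unfold D
  rw [← spl_add]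
  apply spl_congr
  intro v c u _
  ring

theorem D_mul (p : ℝ) (k : ℝ) (f : List C → ℝ) (w : List C) :
    D p (fun z => k * f z) w = k * D p f w := by
  unfold D
  rw [← spl_mul]
  apply spl_congr
  intro v c u _
  ring

theorem D_zero (p : ℝ) (f : List C → ℝ) (w : List C) (h : ∀ z, f z = 0) : D p f w = 0 := by
  unfold D
  rw [← spl_zero w]
  apply spl_congr
  intro v c u _
  rw [h]; ring

theorem D_sum {ι : Type} (s : Finset ι) (p : ℝ) (f : ι → List C → ℝ) (w : List C) :
    D p (fun z => ∑ i ∈ s, f i z) w = ∑ i ∈ s, D p (f i) w := by
  classical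
  induction s using Finset.induction_on with
  | empty => simp only [Finset.sum_empty]; exact D_zero p _ w (fun _ => rfl)
  | insert i s hi ih =>
    simp only [Finset.sum_insert hi]
    rw [D_add, ih]

theorem D_len (p : ℝ) (h : ℕ → ℝ) (f : List C → ℝ) (w : List C) :
    D p (fun z => h z.length * f z) w = h (w.length - 1) * D p f w := by
  unfold D
  rw [← spl_mul]
  apply spl_congr
  intro v c u hw
  have : w.length - 1 = (v ++ u).length := by
    rw [hw]; simp only [List.length_append, List.length_cons]; omega
  rw [this]; ring

theorem D_congr (p : ℝ) (f g : List C → ℝ) (w : List C)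
    (h : ∀ z : List C, z.length < w.length → f z = g z) : D p f w = D p g w := by
  unfold D
  apply spl_congr
  intro v c u hw
  rw [h (v ++ u) (by rw [hw]; simp only [List.length_append, List.length_cons]; omega)]

theorem Leib (p : ℝ) : ∀ (w : List C) (f : List C → C → List C → ℝ),
    D p (spl f) w = spl (fun u1 y u2 => D p (f u1 y) u2 +
      p ^ (1 + u2.length) * D p (fun s => f s y u2) u1) w := by
  intro w
  induction w with
  | nil => intro f; simp [spl, D_nil]
  | cons x w ih =>
    intro f
    rw [D_cons]
    have e1 : D p (fun z => spl f (x :: z)) w =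
        D p (f [] x) w + D p (spl (fun v c u => f (x :: v) c u)) w := by
      rw [← D_add]
      rfl
    rw [e1, ih]
    simp only [spl]
    have e2 : spl (fun v c u => D p (fun z => f (x :: v) c z) u +
        p ^ (1 + u.length) * D p (fun s => f s c u) (x :: v)) w =
        spl (fun v c u => D p (fun z => f (x :: v) c z) u +
        p ^ (1 + u.length) * D p (fun s => f (x :: s) c u) v) w + p ^ w.length * spl f w := by
      rw [← spl_mul, ← spl_add]
      apply spl_congr
      intro v c u hw
      rw [D_cons]
      have : w.length = v.length + (1 + u.length) := by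
        rw [hw]; simp only [List.length_append, List.length_cons]; omega
      rw [this, pow_add]
      ring
    rw [e2, D_nil]
    ring

/-- last letter or wall -/
def lw : Option C → List C → Option C
  | a, [] => a
  | _, x :: u => lw (some x) u

/-- first letter or wall -/
def fw : List C → Option C → Option C
  | [], b => b
  | x :: _, _ => some x

theorem ok_none (b : Option C) : ok none b := Or.inl rfl

theorem ok_none' (a : Option C) : ok a none := by
  unfold ok
  cases a with
  | none => left; rfl
  | some x => right; simp

theorem Pr_right : ∀ (u : List C) (a b : Option C),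
    Pr a u b ↔ (Pr a u none ∧ ok (lw a u) b) := by
  intro u
  induction u with
  | nil => intro a b; simp only [Pr, lw]; exact ⟨fun h => ⟨ok_none' a, h⟩, fun h => h.2⟩
  | cons x u ih =>
    intro a b
    simp only [Pr, lw]
    rw [ih (some x) b]
    tauto

theorem Pr_left (v : List C) (c b : Option C) :
    Pr c v b ↔ (ok c (fw v b) ∧ Pr none v b) := by
  cases v with
  | nil => simp only [Pr, fw]; exact ⟨fun h => ⟨h, ok_none b⟩, fun h => h.1⟩
  | cons x v =>
    simp only [Pr, fw]
    have := ok_none (some x)
    tauto

theorem Pr_split : ∀ (u1 : List C) (a b : Option C) (y : C) (u2 : List C),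
    Pr a (u1 ++ y :: u2) b ↔ (Pr a u1 (some y) ∧ Pr (some y) u2 b) := by
  intro u1
  induction u1 with
  | nil => intro a b y u2; simp only [List.nil_append, Pr]
  | cons x u1 ih =>
    intro a b y u2
    simp only [List.cons_append, Pr]
    rw [ih]
    tauto

theorem Pr_append (u v : List C) (a b : Option C) :
    Pr a (u ++ v) b → ok (lw a u) (fw v b) := by
  intro h
  cases v with
  | nil =>
    rw [List.append_nil] at h
    exact ((Pr_right u a b).1 h).2
  | cons x v =>
    rw [Pr_split] at h
    exact ((Pr_right u a (some x)).1 h.1).2

theorem F_bad (hDEL : S_DEL) {p : ℝ} (hp : Good p) (a b : Option C) (w : List C)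
    (h : ¬ Pr a w b) : F p a w b = 0 := (hDEL C p hp a b).2.1 w h

theorem DF (hDEL : S_DEL) {p : ℝ} (hp : Good p) (a b : Option C) (w : List C)
    (h : Pr a w b) : D p (fun z => F p a z b) w = (1 - p ^ w.length) * F p a w b := by
  by_cases hw : w = []
  · subst hw
    rw [D_nil]; simp
  · rw [(hDEL C p hp a b).2.2.2.1 w hw h]
    rfl

/-- the first bracket -/
noncomputable def K (p : ℝ) (a b : Option C) (B : ℕ) (u : List C) : ℝ :=
  F p a u none - spl (fun u1 y u2 => if some y = b then
    F p a u1 b * F p b u2 none / (1 - p ^ (u2.length + 1 + B)) else 0) u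

/-- the second bracket -/
noncomputable def L (p : ℝ) (a b : Option C) (A : ℕ) (v : List C) : ℝ :=
  F p none v b - spl (fun v1 y v2 => if some y = a then
    p ^ (A + v1.length) / (1 - p ^ (A + v1.length + 1)) *
      F p none v1 a * F p a v2 b else 0) v

theorem Kstar (hDEL : S_DEL) {p : ℝ} (hp : Good p) (a b : Option C) (B : ℕ) (u : List C)
    (hu : Pr a u none) :
    (1 - p ^ (u.length + (B + 1))) * K p a b (B + 1) u =
      p ^ (B + 1) * D p (K p a b (B + 1)) u + (1 - p ^ (B + 1)) * K p a b B u := by
  have e1 : D p (K p a b (B + 1)) u = D p (fun z => F p a z none) u +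
      (-1) * D p (spl (fun u1 y u2 => if some y = b then
    F p a u1 b * F p b u2 none / (1 - p ^ (u2.length + 1 + (B + 1))) else 0)) u := by
    rw [← D_mul, ← D_add]
    apply D_congr
    intro z _
    unfold K
    ring
  rw [e1, DF hDEL hp a none u hu, Leib]
  unfold K
  have e2 : spl (fun u1 y u2 =>
      D p ((fun u1 y u2 => if some y = b then
        F p a u1 b * F p b u2 none / (1 - p ^ (u2.length + 1 + (B + 1))) else 0) u1 y) u2 +
      p ^ (1 + u2.length) * D p (fun s => (fun u1 y u2 => if some y = b then
        F p a u1 b * F p b u2 none / (1 - p ^ (u2.length + 1 + (B + 1))) else 0) s y u2) u1) u =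
      spl (fun u1 y u2 => if some y = b then
        F p a u1 b * F p b u2 none * ((1 - p ^ u2.length) / (1 - p ^ (u2.length + (B + 1))) +
          p ^ (1 + u2.length) * (1 - p ^ u1.length) / (1 - p ^ (u2.length + 1 + (B + 1))))
        else 0) u := by
    apply spl_congr
    intro u1 y u2 hsp
    by_cases hy : some y = b
    · subst hy
      rw [hsp, Pr_split] at hu
      simp only [if_true]
      have d1 : D p (fun u2 => F p a u1 (some y) * F p (some y) u2 none /
          (1 - p ^ (u2.length + 1 + (B + 1)))) u2 =
          F p a u1 (some y) * ((1 - p ^ u2.length) * F p (some y) u2 none) /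
          (1 - p ^ (u2.length + (B + 1))) := by
        have := D_len p (fun n => F p a u1 (some y) / (1 - p ^ (n + 1 + (B + 1))))
          (fun z => F p (some y) z none) u2
        rw [DF hDEL hp (some y) none u2 hu.2] at this
        have e3 : D p (fun u2 => F p a u1 (some y) * F p (some y) u2 none /
          (1 - p ^ (u2.length + 1 + (B + 1)))) u2 = D p (fun z =>
            (fun n => F p a u1 (some y) / (1 - p ^ (n + 1 + (B + 1)))) z.length *
              (fun z => F p (some y) z none) z) u2 := by
          apply D_congr
          intro z _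
          ring
        rw [e3, this]
        by_cases h0 : u2 = []
        · subst h0
          simp
        · have : u2.length - 1 + 1 = u2.length := by
            have := List.length_pos_of_ne_nil h0
            omega
          simp only [this]
          ring
      have d2 : D p (fun s => F p a s (some y) * F p (some y) u2 none /
          (1 - p ^ (u2.length + 1 + (B + 1)))) u1 =
          (1 - p ^ u1.length) * F p a u1 (some y) * (F p (some y) u2 none /
          (1 - p ^ (u2.length + 1 + (B + 1)))) := by
        have e3 : D p (fun s => F p a s (some y) * F p (some y) u2 none /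
          (1 - p ^ (u2.length + 1 + (B + 1)))) u1 = D p (fun z =>
            (F p (some y) u2 none / (1 - p ^ (u2.length + 1 + (B + 1)))) *
              F p a z (some y)) u1 := by
          apply D_congr
          intro z _
          ring
        rw [e3, D_mul, DF hDEL hp a (some y) u1 hu.1]
        ring
      rw [d1, d2]
      ring
    · simp only [if_neg hy]
      rw [D_zero _ _ _ (fun _ => rfl), D_zero _ _ _ (fun _ => rfl)]
      ring
  rw [e2]
  have e4 : (1 - p ^ (u.length + (B + 1))) * spl (fun u1 y u2 => if some y = b then
      F p a u1 b * F p b u2 none / (1 - p ^ (u2.length + 1 + (B + 1))) else 0) u =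
      p ^ (B + 1) * spl (fun u1 y u2 => if some y = b then
        F p a u1 b * F p b u2 none * ((1 - p ^ u2.length) / (1 - p ^ (u2.length + (B + 1))) +
          p ^ (1 + u2.length) * (1 - p ^ u1.length) / (1 - p ^ (u2.length + 1 + (B + 1))))
        else 0) u + (1 - p ^ (B + 1)) * spl (fun u1 y u2 => if some y = b then
      F p a u1 b * F p b u2 none / (1 - p ^ (u2.length + 1 + B)) else 0) u := by
    rw [← spl_mul, ← spl_mul, ← spl_mul, ← spl_add]
    apply spl_congr
    intro u1 y u2 hsp
    by_cases hy : some y = b
    · simp only [if_pos hy]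
      have hl : u.length = u1.length + (u2.length + 1) := by
        rw [hsp]; simp only [List.length_append, List.length_cons]
      rw [hl]
      have n1 : 1 - p ^ (u2.length + (B + 1)) ≠ 0 := hp.sub (u2.length + B)
      have n2 : 1 - p ^ (u2.length + 1 + (B + 1)) ≠ 0 := hp.sub (u2.length + 1 + B)
      have e5 : u2.length + 1 + B = u2.length + (B + 1) := by omega
      rw [e5]
      field_simp
      ring
    · simp only [if_neg hy]
      ring
  have e6 : p ^ (u.length + (B + 1)) = p ^ u.length * p ^ (B + 1) := pow_add _ _ _
  rw [mul_sub, e4, e6]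
  ring

theorem Lstar (hDEL : S_DEL) {p : ℝ} (hp : Good p) (a b : Option C) (A : ℕ) (v : List C)
    (hv : Pr none v b) :
    (1 - p ^ (A + 1 + v.length)) * L p a b (A + 1) v =
      p ^ v.length * (1 - p ^ (A + 1)) * L p a b A v + D p (L p a b (A + 1)) v := by
  have e1 : D p (L p a b (A + 1)) v = D p (fun z => F p none z b) v +
      (-1) * D p (spl (fun v1 y v2 => if some y = a then
    p ^ (A + 1 + v1.length) / (1 - p ^ (A + 1 + v1.length + 1)) *
      F p none v1 a * F p a v2 b else 0)) v := by
    rw [← D_mul, ← D_add]
    apply D_congr
    intro z _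
    unfold L
    ring
  rw [e1, DF hDEL hp none b v hv, Leib]
  unfold L
  have e2 : spl (fun u1 y u2 =>
      D p ((fun v1 y v2 => if some y = a then
    p ^ (A + 1 + v1.length) / (1 - p ^ (A + 1 + v1.length + 1)) *
      F p none v1 a * F p a v2 b else 0) u1 y) u2 +
      p ^ (1 + u2.length) * D p (fun s => (fun v1 y v2 => if some y = a then
    p ^ (A + 1 + v1.length) / (1 - p ^ (A + 1 + v1.length + 1)) *
      F p none v1 a * F p a v2 b else 0) s y u2) u1) v =
      spl (fun u1 y u2 => if some y = a then
        F p none u1 a * F p a u2 b * (p ^ (A + 1 + u1.length) / (1 - p ^ (A + 1 + u1.length + 1)) *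
          (1 - p ^ u2.length) +
          p ^ (1 + u2.length) * (1 - p ^ u1.length) * (p ^ (A + u1.length) /
            (1 - p ^ (A + u1.length + 1))))
        else 0) v := by
    apply spl_congr
    intro u1 y u2 hsp
    by_cases hy : some y = a
    · subst hy
      rw [hsp, Pr_split] at hv
      simp only [if_true]
      have d1 : D p (fun u2 => p ^ (A + 1 + u1.length) / (1 - p ^ (A + 1 + u1.length + 1)) *
          F p none u1 (some y) * F p (some y) u2 b) u2 =
          p ^ (A + 1 + u1.length) / (1 - p ^ (A + 1 + u1.length + 1)) *
          F p none u1 (some y) * ((1 - p ^ u2.length) * F p (some y) u2 b) := by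
        rw [D_mul, DF hDEL hp (some y) b u2 hv.2]
      have d2 : D p (fun s => p ^ (A + 1 + s.length) / (1 - p ^ (A + 1 + s.length + 1)) *
          F p none s (some y) * F p (some y) u2 b) u1 =
          (1 - p ^ u1.length) * F p none u1 (some y) * F p (some y) u2 b *
          (p ^ (A + u1.length) / (1 - p ^ (A + u1.length + 1))) := by
        have := D_len p (fun n => F p (some y) u2 b * (p ^ (A + 1 + n) / (1 - p ^ (A + 1 + n + 1))))
          (fun z => F p none z (some y)) u1
        rw [DF hDEL hp none (some y) u1 hv.1] at this
        have e3 : D p (fun s => p ^ (A + 1 + s.length) / (1 - p ^ (A + 1 + s.length + 1)) *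
          F p none s (some y) * F p (some y) u2 b) u1 = D p (fun z =>
            (fun n => F p (some y) u2 b * (p ^ (A + 1 + n) / (1 - p ^ (A + 1 + n + 1)))) z.length *
              (fun z => F p none z (some y)) z) u1 := by
          apply D_congr
          intro z _
          ring
        rw [e3, this]
        by_cases h0 : u1 = []
        · subst h0
          simp
        · have : A + 1 + (u1.length - 1) = A + u1.length := by
            have := List.length_pos_of_ne_nil h0
            omega
          simp only [this]
          ring
      rw [d1, d2]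
      ring
    · simp only [if_neg hy]
      rw [D_zero _ _ _ (fun _ => rfl), D_zero _ _ _ (fun _ => rfl)]
      ring
  rw [e2]
  have e4 : (1 - p ^ (A + 1 + v.length)) * spl (fun v1 y v2 => if some y = a then
    p ^ (A + 1 + v1.length) / (1 - p ^ (A + 1 + v1.length + 1)) *
      F p none v1 a * F p a v2 b else 0) v =
      p ^ v.length * (1 - p ^ (A + 1)) * spl (fun v1 y v2 => if some y = a then
    p ^ (A + v1.length) / (1 - p ^ (A + v1.length + 1)) *
      F p none v1 a * F p a v2 b else 0) v + spl (fun u1 y u2 => if some y = a then
        F p none u1 a * F p a u2 b * (p ^ (A + 1 + u1.length) / (1 - p ^ (A + 1 + u1.length + 1)) *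
          (1 - p ^ u2.length) +
          p ^ (1 + u2.length) * (1 - p ^ u1.length) * (p ^ (A + u1.length) /
            (1 - p ^ (A + u1.length + 1))))
        else 0) v := by
    rw [← spl_mul, ← spl_mul, ← spl_add]
    apply spl_congr
    intro u1 y u2 hsp
    by_cases hy : some y = a
    · simp only [if_pos hy]
      have hl : v.length = u1.length + (u2.length + 1) := by
        rw [hsp]; simp only [List.length_append, List.length_cons]
      rw [hl]
      have n1 : 1 - p ^ (A + 1 + u1.length + 1) ≠ 0 := hp.sub (A + 1 + u1.length)
      have n2 : 1 - p ^ (A + u1.length + 1) ≠ 0 := hp.sub (A + u1.length)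
      field_simp
      ring
    · simp only [if_neg hy]
      ring
  have e6 : p ^ (A + 1 + v.length) = p ^ (A + 1) * p ^ v.length := pow_add _ _ _
  rw [mul_sub, e4, e6]
  ring

end basics

end Pool.Agent.W469.CY
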