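import Pool.Agent.W469.CY.GAP

set_option autoImplicit false
set_option linter.unusedSectionVars false

namespace Pool.Agent.W469.CY

open Pool.Agent.W739.CY

section main

variable {C : Type} [DecidableEq C]

theorem ok_self (x : C) : ¬ ok (some x) (some x) := by
  unfold ok; simp

theorem lw_snoc : ∀ (u : List C) (a : Option C) (x : C), lw a (u ++ [x]) = some x := by
  intro u
  induction u with
  | nil => intro a x; rfl
  | cons y u ih => intro a x; exact ih (some y) x

theorem lw_ne (u : List C) (a : Option C) (hu : u ≠ []) : lw a u ≠ none := by
  rcases List.eq_nil_or_concat u with h | ⟨u', y, h⟩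
  · exact absurd h hu
  · rw [h, List.concat_eq_append, lw_snoc]; simp

theorem fw_ne (v : List C) (b : Option C) (hv : v ≠ []) : fw v b ≠ none := by
  cases v with
  | nil => exact absurd rfl hv
  | cons x v => simp [fw]

theorem D_snoc (p : ℝ) (f : List C → ℝ) (u : List C) (x : C) :
    D p f (u ++ [x]) = p * D p (fun z => f (z ++ [x])) u + f u := by
  unfold D
  rw [spl_append, ← spl_mul]
  congr 1
  · apply spl_congr
    intro v c r _
    rw [List.length_append, List.length_singleton, pow_succ, ← List.append_assoc]
    ring
  · simp [spl]

/-- right side of the deletion recursion -/
noncomputable def R (p : ℝ) (a b : Option C) (u v : List C) (x : C) : ℝ :=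
  p ^ (v.length + 1) * D p (fun z => F p a (z ++ x :: v) b) u + p ^ v.length * F p a (u ++ v) b
    + D p (fun z => F p a (u ++ x :: z) b) v

/-- correction -/
noncomputable def Cor (p : ℝ) (a b : Option C) (u v : List C) (x : C) : ℝ :=
  (if lw a u = some x then ((if u = [] then 0 else p ^ (v.length + 1)) + p ^ v.length) else 0) +
  (if fw v b = some x then ((if v = [] then 0 else p ^ (v.length - 1)) + p ^ v.length) else 0)

theorem R_eq (hDEL : S_DEL) {p : ℝ} (hp : Good p) (a b : Option C) (u v : List C) (x : C)
    (hu : Pr a u none) (hv : Pr none v b) :
    (1 - p ^ (u.length + v.length + 1)) * F p a (u ++ x :: v) b =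
      R p a b u v x - Cor p a b u v x * F p a (u ++ v) b := by
  by_cases hpr : Pr a (u ++ x :: v) b
  · have h1 := DF hDEL hp a b (u ++ x :: v) hpr
    have hl : (u ++ x :: v).length = u.length + v.length + 1 := by
      simp only [List.length_append, List.length_cons]; omega
    rw [hl] at h1
    rw [← h1]
    have h2 := (Pr_split u a b x v).1 hpr
    have h3 := ((Pr_right u a (some x)).1 h2.1).2
    have h4 := ((Pr_left v (some x) b).1 h2.2).1
    have c1 : lw a u ≠ some x := by
      intro h; rw [h] at h3; exact ok_self x h3
    have c2 : fw v b ≠ some x := by
      intro h; rw [h] at h4; exact ok_self x h4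
    unfold Cor R
    rw [if_neg c1, if_neg c2]
    have e1 : D p (fun z => F p a z b) (u ++ x :: v) =
        p ^ (v.length + 1) * D p (fun z => F p a (z ++ x :: v) b) u +
        D p (fun z => F p a (u ++ z) b) (x :: v) := by
      unfold D
      rw [spl_append, ← spl_mul]
      congr 1
      · apply spl_congr
        intro w c r _
        rw [List.length_append, List.length_cons, pow_add, ← List.append_assoc]
        ring
      · apply spl_congr
        intro w c r _
        rw [List.append_assoc]
    rw [e1, D_cons]
    ring
  · rw [F_bad hDEL hp a b _ hpr, mul_zero]
    have key : R p a b u v x = Cor p a b u v x * F p a (u ++ v) b := by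
      by_cases c1 : lw a u = some x
      · have z2 : D p (fun z => F p a (u ++ x :: z) b) v = 0 := by
          apply D_zero
          intro z
          apply F_bad hDEL hp
          intro h
          have h2 := (Pr_split u a b x z).1 h
          have h3 := ((Pr_right u a (some x)).1 h2.1).2
          rw [c1] at h3
          exact ok_self x h3
        by_cases c2 : fw v b = some x
        · have z1 : D p (fun z => F p a (z ++ x :: v) b) u = 0 := by
            apply D_zero
            intro z
            apply F_bad hDEL hp
            intro h
            have h2 := (Pr_split z a b x v).1 h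
            have h4 := ((Pr_left v (some x) b).1 h2.2).1
            rw [c2] at h4
            exact ok_self x h4
          have z3 : F p a (u ++ v) b = 0 := by
            apply F_bad hDEL hp
            intro h
            have := Pr_append u v a b h
            rw [c1, c2] at this
            exact ok_self x this
          unfold R
          rw [z1, z2, z3]
          ring
        · have z1 : D p (fun z => F p a (z ++ x :: v) b) u =
              (if u = [] then 0 else F p a (u ++ v) b) := by
            rcases List.eq_nil_or_concat u with h | ⟨u', y, h⟩
            · rw [if_pos h, h, D_nil]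
            · rw [List.concat_eq_append] at h
              have hy : y = x := by
                rw [h, lw_snoc] at c1
                exact Option.some.inj c1
              subst hy
              have hne : u ≠ [] := by rw [h]; simp
              rw [if_neg hne, h, D_snoc]
              have z0 : D p (fun z => F p a ((z ++ [y]) ++ y :: v) b) u' = 0 := by
                apply D_zero
                intro z
                apply F_bad hDEL hp
                intro h
                have h2 := (Pr_split (z ++ [y]) a b y v).1 h
                have h3 := ((Pr_right (z ++ [y]) a (some y)).1 h2.1).2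
                rw [lw_snoc] at h3
                exact ok_self y h3
              rw [z0]
              simp
          unfold R Cor
          rw [z1, z2, if_pos c1, if_neg c2]
          by_cases hn : u = []
          · simp only [if_pos hn]; ring
          · simp only [if_neg hn]; ring
      · by_cases c2 : fw v b = some x
        · have z1 : D p (fun z => F p a (z ++ x :: v) b) u = 0 := by
            apply D_zero
            intro z
            apply F_bad hDEL hp
            intro h
            have h2 := (Pr_split z a b x v).1 h
            have h4 := ((Pr_left v (some x) b).1 h2.2).1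
            rw [c2] at h4
            exact ok_self x h4
          have z2 : D p (fun z => F p a (u ++ x :: z) b) v =
              (if v = [] then 0 else p ^ (v.length - 1) * F p a (u ++ v) b) := by
            cases v with
            | nil => simp [D_nil]
            | cons y v =>
              have hy : y = x := by
                simp only [fw] at c2
                exact Option.some.inj c2
              subst hy
              rw [if_neg (by simp), D_cons]
              have z0 : D p (fun z => F p a (u ++ y :: y :: z) b) v = 0 := by
                apply D_zero
                intro z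
                apply F_bad hDEL hp
                intro h
                have h2 := (Pr_split u a b y (y :: z)).1 h
                have h3 := h2.2
                simp only [Pr] at h3
                exact ok_self y h3.1
              rw [z0]
              simp
          unfold R Cor
          rw [z1, z2, if_neg c1, if_pos c2]
          by_cases hn : v = []
          · simp only [if_pos hn]; ring
          · simp only [if_neg hn]; ring
        · exfalso
          apply hpr
          rw [Pr_split]
          refine ⟨(Pr_right u a (some x)).2 ⟨hu, ?_⟩, (Pr_left v (some x) b).2 ⟨?_, hv⟩⟩
          · exact Or.inr c1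
          · exact Or.inr (fun h => c2 h.symm)
    rw [key]
    ring

variable [Fintype C]

noncomputable def SS (p : ℝ) (a b : Option C) (u v : List C) : ℝ := ∑ x : C, F p a (u ++ x :: v) b

theorem sum_opt (l : Option C) (k : ℝ) :
    ∑ x : C, (if l = some x then k else 0) = if l = none then 0 else k := by
  cases l with
  | none => simp
  | some y => simp

theorem MR (hDEL : S_DEL) {p : ℝ} (hp : Good p) (hq : (Fintype.card C : ℝ) * p = (1 + p) ^ 2)
    (a b : Option C) (u v : List C) (hu : Pr a u none) (hv : Pr none v b) :
    (1 - p ^ (u.length + v.length + 1)) * SS p a b u v =
      p ^ (v.length + 1) * D p (fun z => SS p a b z v) u + D p (fun z => SS p a b u z) v +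
      ((if u = [] then p ^ (v.length + 1) * be p a else 0) + (if v = [] then al p b else 0)) *
        F p a (u ++ v) b := by
  have h1 : (1 - p ^ (u.length + v.length + 1)) * SS p a b u v =
      ∑ x : C, (R p a b u v x - Cor p a b u v x * F p a (u ++ v) b) := by
    unfold SS
    rw [Finset.mul_sum]
    apply Finset.sum_congr rfl
    intro x _
    exact R_eq hDEL hp a b u v x hu hv
  rw [h1, Finset.sum_sub_distrib, ← Finset.sum_mul]
  have h2 : ∑ x : C, R p a b u v x = p ^ (v.length + 1) * D p (fun z => SS p a b z v) u +
      (Fintype.card C : ℝ) * (p ^ v.length * F p a (u ++ v) b) +
      D p (fun z => SS p a b u z) v := by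
    unfold R SS
    rw [Finset.sum_add_distrib, Finset.sum_add_distrib, ← Finset.mul_sum, D_sum, D_sum]
    simp
  have h3 : ∑ x : C, Cor p a b u v x =
      (if lw a u = none then 0 else ((if u = [] then 0 else p ^ (v.length + 1)) + p ^ v.length)) +
      (if fw v b = none then 0 else ((if v = [] then 0 else p ^ (v.length - 1)) + p ^ v.length)) := by
    unfold Cor
    rw [Finset.sum_add_distrib, sum_opt, sum_opt]
  rw [h2, h3]
  have hne : p ≠ 0 := hp.ne
  have hq' : (Fintype.card C : ℝ) = (1 + p) ^ 2 / p := by
    field_simp; linarith
  rw [hq']
  by_cases cu : u = []
  · by_cases cv : v = []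
    · subst cu; subst cv
      simp only [lw, fw, if_true, al, be, List.length_nil]
      by_cases ca : a = none
      · by_cases cb : b = none
        · simp only [if_pos ca, if_pos cb]; field_simp; ring
        · simp only [if_pos ca, if_neg cb]; field_simp; ring
      · by_cases cb : b = none
        · simp only [if_neg ca, if_pos cb]; field_simp; ring
        · simp only [if_neg ca, if_neg cb]; field_simp; ring
    · subst cu
      obtain ⟨y, v', hvv⟩ := List.exists_cons_of_ne_nil cv
      have hl : v.length = v'.length + 1 := by rw [hvv]; rfl
      simp only [lw, if_true, if_neg cv, if_neg (fw_ne v b cv), be]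
      rw [hl]
      have : v'.length + 1 - 1 = v'.length := by omega
      rw [this]
      by_cases ca : a = none
      · simp only [if_pos ca]; field_simp; ring
      · simp only [if_neg ca]; field_simp; ring
  · by_cases cv : v = []
    · subst cv
      simp only [fw, if_true, if_neg cu, if_neg (lw_ne u a cu), al, List.length_nil]
      by_cases cb : b = none
      · simp only [if_pos cb]; field_simp; ring
      · simp only [if_neg cb]; field_simp; ring
    · obtain ⟨y, v', hvv⟩ := List.exists_cons_of_ne_nil cv
      have hl : v.length = v'.length + 1 := by rw [hvv]; rfl
      simp only [if_neg cu, if_neg cv, if_neg (fw_ne v b cv), if_neg (lw_ne u a cu)]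
      rw [hl]
      have : v'.length + 1 - 1 = v'.length := by omega
      rw [this]
      field_simp
      ring

noncomputable def T1 (p : ℝ) (a b : Option C) (u v : List C) : ℝ :=
  F p none v b / (1 - p ^ (v.length + 1)) * K p a b (v.length + 1) u

noncomputable def T2 (p : ℝ) (a b : Option C) (u v : List C) : ℝ :=
  p ^ (u.length + 1) / (1 - p ^ (u.length + 1)) * F p a u none * L p a b (u.length + 1) v

theorem T1rec (hDEL : S_DEL) (hVL : S_VL) {p : ℝ} (hp : Good p)
    (a b : Option C) (hab : ok a b) (u v : List C) (hu : Pr a u none) (hv : Pr none v b) :
    (1 - p ^ (u.length + v.length + 1)) * T1 p a b u v =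
      p ^ (v.length + 1) * D p (fun z => T1 p a b z v) u + D p (fun z => T1 p a b u z) v +
      (if v = [] then F p a (u ++ v) b else 0) := by
  have n1 : 1 - p ^ (v.length + 1) ≠ 0 := hp.sub v.length
  have e1 : D p (fun z => T1 p a b z v) u =
      F p none v b / (1 - p ^ (v.length + 1)) * D p (K p a b (v.length + 1)) u := by
    rw [← D_mul]; rfl
  have e2 : D p (fun z => T1 p a b u z) v + (if v = [] then F p a (u ++ v) b else 0) =
      F p none v b * K p a b v.length u := by
    by_cases hn : v = []
    · subst hn
      rw [D_nil, if_pos rfl, List.append_nil, (hDEL C p hp none b).1, if_pos (ok_none b),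
        hVL C p hp a b u hab]
      unfold K
      simp
    · rw [if_neg hn, add_zero]
      have := D_len p (fun n => K p a b (n + 1) u / (1 - p ^ (n + 1)))
        (fun z => F p none z b) v
      rw [DF hDEL hp none b v hv] at this
      have e3 : D p (fun z => T1 p a b u z) v = D p (fun z =>
          (fun n => K p a b (n + 1) u / (1 - p ^ (n + 1))) z.length *
            (fun z => F p none z b) z) v := by
        apply D_congr
        intro z _
        unfold T1
        ring
      rw [e3, this]
      have hl : v.length - 1 + 1 = v.length := by
        have := List.length_pos_of_ne_nil hn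
        omega
      simp only [hl]
      have n2 : 1 - p ^ v.length ≠ 0 := by
        have := hp.sub (v.length - 1)
        rwa [hl] at this
      field_simp
  have e4 := Kstar hDEL hp a b v.length u hu
  have e5 : (1 - p ^ (u.length + v.length + 1)) * T1 p a b u v =
      F p none v b / (1 - p ^ (v.length + 1)) *
        ((1 - p ^ (u.length + (v.length + 1))) * K p a b (v.length + 1) u) := by
    unfold T1
    rw [← add_assoc]
    ring
  rw [e5, e4, add_assoc, e2, e1]
  field_simp

theorem T2rec (hDEL : S_DEL) (hVR : S_VR) {p : ℝ} (hp : Good p)
    (a b : Option C) (hab : ok a b) (u v : List C) (hu : Pr a u none) (hv : Pr none v b) :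
    (1 - p ^ (u.length + v.length + 1)) * T2 p a b u v =
      p ^ (v.length + 1) * D p (fun z => T2 p a b z v) u + D p (fun z => T2 p a b u z) v +
      (if u = [] then p ^ (v.length + 1) * F p a (u ++ v) b else 0) := by
  have n1 : 1 - p ^ (u.length + 1) ≠ 0 := hp.sub u.length
  have e1 : D p (fun z => T2 p a b u z) v =
      p ^ (u.length + 1) / (1 - p ^ (u.length + 1)) * F p a u none *
        D p (L p a b (u.length + 1)) v := by
    rw [← D_mul]; rfl
  have e2 : p ^ (v.length + 1) * D p (fun z => T2 p a b z v) u +
      (if u = [] then p ^ (v.length + 1) * F p a (u ++ v) b else 0) =
      p ^ (v.length + 1) * p ^ u.length * F p a u none * L p a b u.length v := by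
    by_cases hn : u = []
    · subst hn
      rw [D_nil, if_pos rfl, List.nil_append, (hDEL C p hp a none).1, if_pos (ok_none' a),
        hVR C p hp a b v hab]
      unfold L
      simp
    · rw [if_neg hn, add_zero]
      have := D_len p (fun n => p ^ (n + 1) / (1 - p ^ (n + 1)) * L p a b (n + 1) v)
        (fun z => F p a z none) u
      rw [DF hDEL hp a none u hu] at this
      have e3 : D p (fun z => T2 p a b z v) u = D p (fun z =>
          (fun n => p ^ (n + 1) / (1 - p ^ (n + 1)) * L p a b (n + 1) v) z.length *
            (fun z => F p a z none) z) u := by
        apply D_congr
        intro z _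
        unfold T2
        ring
      rw [e3, this]
      have hl : u.length - 1 + 1 = u.length := by
        have := List.length_pos_of_ne_nil hn
        omega
      simp only [hl]
      have n2 : 1 - p ^ u.length ≠ 0 := by
        have := hp.sub (u.length - 1)
        rwa [hl] at this
      field_simp
  have e4 := Lstar hDEL hp a b u.length v hv
  have e5 : (1 - p ^ (u.length + v.length + 1)) * T2 p a b u v =
      p ^ (u.length + 1) / (1 - p ^ (u.length + 1)) * F p a u none *
        ((1 - p ^ (u.length + 1 + v.length)) * L p a b (u.length + 1) v) := by
    unfold T2
    have : u.length + v.length + 1 = u.length + 1 + v.length := by omega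
    rw [this]
    ring
  have e6 : p ^ (v.length + 1) * D p (fun z => T2 p a b z v) u + D p (fun z => T2 p a b u z) v +
      (if u = [] then p ^ (v.length + 1) * F p a (u ++ v) b else 0) =
      (p ^ (v.length + 1) * D p (fun z => T2 p a b z v) u +
      (if u = [] then p ^ (v.length + 1) * F p a (u ++ v) b else 0)) +
      D p (fun z => T2 p a b u z) v := by ring
  rw [e6, e2, e5, e4, e1]
  field_simp
  ring

theorem spl_zero' (w : List C) (f : List C → C → List C → ℝ)
    (h : ∀ v c u, w = v ++ c :: u → f v c u = 0) : spl f w = 0 := by
  rw [← spl_zero w]
  exact spl_congr w _ _ h

theorem GAPmain (hDEL : S_DEL) (hVL : S_VL) (hVR : S_VR) {p : ℝ} (hp : Good p)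
    (hq : (Fintype.card C : ℝ) * p = (1 + p) ^ 2) (a b : Option C) (hab : ok a b) :
    ∀ (N : ℕ) (u v : List C), u.length + v.length = N →
      SS p a b u v = al p b * T1 p a b u v + be p a * T2 p a b u v := by
  intro N
  induction N using Nat.strong_induction_on with
  | _ N ih =>
    intro u v hN
    by_cases hu : Pr a u none
    · by_cases hv : Pr none v b
      · have h1 := MR hDEL hp hq a b u v hu hv
        have h2 := T1rec hDEL hVL hp a b hab u v hu hv
        have h3 := T2rec hDEL hVR hp a b hab u v hu hv
        have d1 : D p (fun z => SS p a b z v) u =
            al p b * D p (fun z => T1 p a b z v) u + be p a * D p (fun z => T2 p a b z v) u := by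
          rw [← D_mul, ← D_mul, ← D_add]
          apply D_congr
          intro z hz
          exact ih (z.length + v.length) (by omega) z v rfl
        have d2 : D p (fun z => SS p a b u z) v =
            al p b * D p (fun z => T1 p a b u z) v + be p a * D p (fun z => T2 p a b u z) v := by
          rw [← D_mul, ← D_mul, ← D_add]
          apply D_congr
          intro z hz
          exact ih (u.length + z.length) (by omega) u z rfl
        rw [d1, d2] at h1
        have n : 1 - p ^ (u.length + v.length + 1) ≠ 0 := hp.sub (u.length + v.length)
        apply mul_left_cancel₀ n
        rw [h1]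
        have h4 : (1 - p ^ (u.length + v.length + 1)) *
            (al p b * T1 p a b u v + be p a * T2 p a b u v) =
            al p b * ((1 - p ^ (u.length + v.length + 1)) * T1 p a b u v) +
            be p a * ((1 - p ^ (u.length + v.length + 1)) * T2 p a b u v) := by ring
        rw [h4, h2, h3]
        by_cases cu : u = []
        · by_cases cv : v = []
          · simp only [if_pos cu, if_pos cv]; ring
          · simp only [if_pos cu, if_neg cv]; ring
        · by_cases cv : v = []
          · simp only [if_neg cu, if_pos cv]; ring
          · simp only [if_neg cu, if_neg cv]; ring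
      · have z1 : SS p a b u v = 0 := by
          unfold SS
          apply Finset.sum_eq_zero
          intro x _
          apply F_bad hDEL hp
          intro h
          exact hv ((Pr_left v (some x) b).1 ((Pr_split u a b x v).1 h).2).2
        have z2 : F p none v b = 0 := F_bad hDEL hp _ _ _ hv
        have z3 : L p a b (u.length + 1) v = 0 := by
          unfold L
          rw [z2, spl_zero']
          · ring
          · intro v1 y v2 hsp
            by_cases hy : some y = a
            · rw [if_pos hy]
              by_cases g1 : Pr none v1 a
              · by_cases g2 : Pr a v2 b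
                · exfalso
                  apply hv
                  rw [hsp, Pr_split, hy]
                  exact ⟨g1, g2⟩
                · rw [F_bad hDEL hp a b v2 g2, mul_zero]
              · rw [F_bad hDEL hp none a v1 g1]
                ring
            · rw [if_neg hy]
        unfold T1 T2
        rw [z1, z2, z3]
        ring
    · have z1 : SS p a b u v = 0 := by
        unfold SS
        apply Finset.sum_eq_zero
        intro x _
        apply F_bad hDEL hp
        intro h
        exact hu ((Pr_right u a (some x)).1 ((Pr_split u a b x v).1 h).1).1
      have z2 : F p a u none = 0 := F_bad hDEL hp _ _ _ hu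
      have z3 : K p a b (v.length + 1) u = 0 := by
        unfold K
        rw [z2, spl_zero']
        · ring
        · intro v1 y v2 hsp
          by_cases hy : some y = b
          · rw [if_pos hy]
            by_cases g1 : Pr a v1 b
            · by_cases g2 : Pr b v2 none
              · exfalso
                apply hu
                rw [hsp, Pr_split, hy]
                exact ⟨g1, g2⟩
              · rw [F_bad hDEL hp b none v2 g2]
                ring
            · rw [F_bad hDEL hp a b v1 g1]
              ring
          · rw [if_neg hy]
      unfold T1 T2
      rw [z1, z2, z3]
      ring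

end main

theorem t_GAP (hDEL : S_DEL) (hVL : S_VL) (hVR : S_VR) : S_GAP := by
  intro C _ _ p hp hq a b u v hab
  have h := GAPmain hDEL hVL hVR hp hq a b hab (u.length + v.length) u v rfl
  unfold SS T1 T2 K L at h
  rw [h]
  ring

end Pool.Agent.W469.CY
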